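import Mathlib
import Pool.Agent.Helper934.PrMain

open MeasureTheory Set
open scoped ENNReal

namespace Pool.Agent.Y368.MX

open Pool.Agent.Helper934.Pr

/-! ### Mixed profiles -/

/-- General comparison: replace every profile by a dominating one. -/
theorem chainG {E : Type*} [NormedAddCommGroup E] [NormedSpace ℝ E] [FiniteDimensional ℝ E]
    [MeasurableSpace E] [BorelSpace E] (μ : Measure E) [μ.IsAddHaarMeasure] {n : ℕ}
    (T : (Fin n → ℝ) →ₗ[ℝ] E) (F G : Fin n → ℝ → ℝ) (hF : ∀ i, Prof (F i))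
    (hG : ∀ i, Prof (G i)) (hd : ∀ i, F i = G i ∨ Dom (F i) (G i)) :
    ∫⁻ y, SS T F y ∂μ ≤ ∫⁻ y, SS T G y ∂μ := by
  classical
  have key : ∀ s : Finset (Fin n), ∫⁻ y, SS T F y ∂μ ≤
      ∫⁻ y, SS T (fun j => if j ∈ s then G j else F j) y ∂μ := by
    intro s
    induction s using Finset.induction_on with
    | empty => simp
    | insert a s ha ih =>
      refine ih.trans ?_
      have h2 : Function.update (fun j => if j ∈ s then G j else F j) a (G a) =
          fun j => if j ∈ insert a s then G j else F j := by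
        funext j
        by_cases hj : j = a
        · subst hj; simp
        · rw [Function.update_of_ne hj]
          simp [Finset.mem_insert, hj]
      rw [← h2]
      rcases hd a with h | h
      · have h3 : Function.update (fun j => if j ∈ s then G j else F j) a (G a) =
            fun j => if j ∈ s then G j else F j := by
          funext j
          by_cases hj : j = a
          · subst hj; simp [ha, h]
          · rw [Function.update_of_ne hj]
        rw [h3]
      · exact chain1 μ T (fun j => if j ∈ s then G j else F j) (fun j => by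
          show Prof (if j ∈ s then G j else F j)
          split_ifs
          · exact hG j
          · exact hF j) a (G a) (hG a) (by
          show Dom (if a ∈ s then G a else F a) (G a)
          rw [if_neg ha]
          exact h)
  have := key Finset.univ
  simpa using this

/-- The integral over the half line of a normalised profile. -/
theorem half (c p : ℝ) (hc : 0 < c) (hp : 1 ≤ p)
    (h1 : ∫⁻ r : ℝ, ENNReal.ofReal (ex c p r) = 1) : ∫ r in Ioi (0 : ℝ), ex c p r = 1 / 2 := by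
  have hf := ex_prof c p hc hp
  have hint : Integrable (ex c p) := by
    refine ⟨hf.cont.aestronglyMeasurable, ?_⟩
    rw [hasFiniteIntegral_iff_ofReal (Filter.Eventually.of_forall fun r => (hf.pos r).le), h1]
    exact ENNReal.one_lt_top
  have hI : ∫ r, ex c p r = 1 := by
    have h2 := ofReal_integral_eq_lintegral_ofReal hint
      (Filter.Eventually.of_forall fun r => (hf.pos r).le)
    rw [h1] at h2
    have h3 : (ENNReal.ofReal (∫ r, ex c p r)).toReal = 1 := by rw [h2]; simp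
    rwa [ENNReal.toReal_ofReal (integral_nonneg fun r => (hf.pos r).le)] at h3
  have h6 := integral_comp_abs (f := fun x => Real.exp (-(c * x ^ p)))
  have h7 : ∫ r in Ioi (0:ℝ), ex c p r = ∫ x in Ioi (0:ℝ), Real.exp (-(c * x ^ p)) := by
    apply setIntegral_congr_fun measurableSet_Ioi
    intro x hx
    simp only [ex]
    rw [abs_of_pos (mem_Ioi.1 hx)]
  rw [h7]
  simp only [ex] at hI
  rw [hI] at h6
  linarith

/-- The normalising constant is determined by the exponent. -/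
theorem c_unique (c c' p : ℝ) (hc : 0 < c) (hc' : 0 < c') (hp : 1 ≤ p)
    (h : ∫ r in Ioi (0 : ℝ), ex c p r = ∫ r in Ioi (0 : ℝ), ex c' p r) : c = c' := by
  have hp0 : 0 < p := by linarith
  have key : ∀ b : ℝ, 0 < b → ∫ r in Ioi (0:ℝ), ex b p r = b ^ (-1 / p) * Real.Gamma (1 / p + 1) := by
    intro b hb
    rw [← integral_exp_neg_mul_rpow hp0 hb]
    apply setIntegral_congr_fun measurableSet_Ioi
    intro x hx
    simp only [ex]
    rw [abs_of_pos (mem_Ioi.1 hx), neg_mul]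
  rw [key c hc, key c' hc'] at h
  have hΓ : 0 < Real.Gamma (1 / p + 1) := Real.Gamma_pos_of_pos (by positivity)
  have h2 := mul_right_cancel₀ hΓ.ne' h
  have hne : -1 / p ≠ 0 := by
    have : 0 < 1 / p := by positivity
    rw [neg_div]
    exact neg_ne_zero.2 this.ne'
  exact Real.rpow_left_injOn hne hc.le hc'.le h2

/-- Mixed exponents. -/
theorem mixed {E : Type*} [NormedAddCommGroup E] [NormedSpace ℝ E] [FiniteDimensional ℝ E]
    [MeasurableSpace E] [BorelSpace E] (μ : Measure E) [μ.IsAddHaarMeasure] {n : ℕ}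
    (T : (Fin n → ℝ) →ₗ[ℝ] E) (P Q c c' : Fin n → ℝ) (hP : ∀ i, 1 ≤ P i)
    (hPQ : ∀ i, P i ≤ Q i) (hc : ∀ i, 0 < c i) (hc' : ∀ i, 0 < c' i)
    (h1 : ∀ i, ∫⁻ r : ℝ, ENNReal.ofReal (ex (c i) (P i) r) = 1)
    (h2 : ∀ i, ∫⁻ r : ℝ, ENNReal.ofReal (ex (c' i) (Q i) r) = 1) :
    ∫⁻ y, SS T (fun i => ex (c i) (P i)) y ∂μ ≤ ∫⁻ y, SS T (fun i => ex (c' i) (Q i)) y ∂μ := by
  apply chainG μ T _ _ (fun i => ex_prof _ _ (hc i) (hP i))
    (fun i => ex_prof _ _ (hc' i) ((hP i).trans (hPQ i)))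
  intro i
  have e1 := half (c i) (P i) (hc i) (hP i) (h1 i)
  have e2 := half (c' i) (Q i) (hc' i) ((hP i).trans (hPQ i)) (h2 i)
  rcases eq_or_lt_of_le (hPQ i) with h | h
  · left
    rw [← h] at e2 ⊢
    rw [c_unique (c i) (c' i) (P i) (hc i) (hc' i) (hP i) (by rw [e1, e2])]
  · right
    exact ex_dom _ _ _ _ (hc i) (hc' i) (hP i) h (by rw [e1, e2])

/-- The diagonal of the mixed functional. -/
theorem diag {E : Type*} [NormedAddCommGroup E] [NormedSpace ℝ E] [FiniteDimensional ℝ E]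
    [MeasurableSpace E] [BorelSpace E] (μ : Measure E) [μ.IsAddHaarMeasure] {n : ℕ}
    (T : (Fin n → ℝ) →ₗ[ℝ] E) (p c : ℝ) (hp : 1 ≤ p) (hc : 0 < c)
    (h1 : ∫⁻ r : ℝ, ENNReal.ofReal (ex c p r) = 1) :
    ∫⁻ y, SS T (fun _ => ex c p) y ∂μ = μ (T '' {x | ∑ i, |x i| ^ p ≤ 1}) /
        volume {x : Fin (Module.finrank ℝ E) → ℝ | ∑ i, |x i| ^ p ≤ 1} := by
  rw [scaling μ T c p hc hp]
  have e1 : CC c p (Module.finrank ℝ E) =
      (volume {x : Fin (Module.finrank ℝ E) → ℝ | ∑ i, |x i| ^ p ≤ 1})⁻¹ :=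
    ENNReal.eq_inv_of_mul_eq_one_left (norm_id (Module.finrank ℝ E) c p hc hp h1)
  rw [e1, ENNReal.div_eq_inv_mul]

/-! ### The exponent infinity -/

theorem ball_le_cube {n : ℕ} (q : ℝ) (hq : 1 ≤ q) :
    {x : Fin n → ℝ | ∑ i, |x i| ^ q ≤ 1} ⊆ {x : Fin n → ℝ | ∀ i, |x i| ≤ 1} := by
  intro x hx i
  by_contra h
  push Not at h
  have h2 : |x i| ^ q ≤ ∑ j, |x j| ^ q :=
    Finset.single_le_sum (f := fun j => |x j| ^ q)
      (fun j _ => Real.rpow_nonneg (abs_nonneg _) _) (Finset.mem_univ i)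
  have h3 : 1 < |x i| ^ q := Real.one_lt_rpow h (by linarith)
  have h4 : ∑ j, |x j| ^ q ≤ 1 := hx
  linarith

theorem cube_le_ball (k : ℕ) (q : ℝ) (hq : 1 ≤ q) :
    ENNReal.ofReal ((((k : ℝ) + 1) ^ (-(1 / q))) ^ k) *
      volume {x : Fin k → ℝ | ∀ i, |x i| ≤ 1} ≤ volume {x : Fin k → ℝ | ∑ i, |x i| ^ q ≤ 1} := by
  have hq0 : 0 < q := by linarith
  set s : ℝ := ((k : ℝ) + 1) ^ (-(1 / q)) with hs
  have hk : (0 : ℝ) < (k : ℝ) + 1 := by positivity
  have hs0 : 0 < s := Real.rpow_pos_of_pos hk _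
  have hsq : s ^ q = ((k : ℝ) + 1)⁻¹ := by
    rw [hs, ← Real.rpow_mul hk.le, neg_mul, one_div, inv_mul_cancel₀ hq0.ne', Real.rpow_neg_one]
  have h1 := Measure.addHaar_smul (volume : Measure (Fin k → ℝ)) s
    {x : Fin k → ℝ | ∀ i, |x i| ≤ 1}
  rw [Module.finrank_fin_fun, abs_of_pos (pow_pos hs0 k)] at h1
  rw [← h1]
  apply measure_mono
  rintro _ ⟨x, hx, rfl⟩
  show ∑ i, |(s • x) i| ^ q ≤ 1
  calc ∑ i, |(s • x) i| ^ q ≤ ∑ _i : Fin k, ((k : ℝ) + 1)⁻¹ := by
        apply Finset.sum_le_sum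
        intro i _
        rw [Pi.smul_apply, smul_eq_mul, abs_mul, abs_of_pos hs0, ← hsq]
        apply Real.rpow_le_rpow (by positivity) _ hq0.le
        have := hx i
        nlinarith [abs_nonneg (x i)]
    _ = k * ((k : ℝ) + 1)⁻¹ := by simp
    _ ≤ 1 := by
        rw [← div_eq_mul_inv, div_le_one hk]
        linarith

/-- The exponent `∞`. -/
theorem main_top {E : Type*} [NormedAddCommGroup E] [NormedSpace ℝ E] [FiniteDimensional ℝ E]
    [MeasurableSpace E] [BorelSpace E] (μ : Measure E) [μ.IsAddHaarMeasure] {n : ℕ}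
    (T : (Fin n → ℝ) →ₗ[ℝ] E) (p : ℝ) (hp : 1 ≤ p) :
    μ (T '' {x | ∑ i, |x i| ^ p ≤ 1}) /
        volume {x : Fin (Module.finrank ℝ E) → ℝ | ∑ i, |x i| ^ p ≤ 1} ≤
      μ (T '' {x | ∀ i, |x i| ≤ 1}) /
        volume {x : Fin (Module.finrank ℝ E) → ℝ | ∀ i, |x i| ≤ 1} := by
  set k := Module.finrank ℝ E with hk
  set X := μ (T '' {x | ∑ i, |x i| ^ p ≤ 1}) /
        volume {x : Fin k → ℝ | ∑ i, |x i| ^ p ≤ 1} with hX
  set V := volume {x : Fin k → ℝ | ∀ i, |x i| ≤ 1} with hV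
  set A := μ (T '' {x | ∀ i, |x i| ≤ 1}) with hA
  have hVb : V = 2 ^ k := by
    have : {x : Fin k → ℝ | ∀ i, |x i| ≤ 1} = Set.pi Set.univ fun _ => Icc (-1 : ℝ) 1 := by
      ext x
      simp only [Set.mem_pi, mem_univ, true_implies, mem_Icc, ← abs_le]
      exact Iff.rfl
    rw [hV, this, volume_pi_pi]
    simp only [Real.volume_Icc, sub_neg_eq_add, Finset.prod_const, Finset.card_univ,
      Fintype.card_fin]
    norm_num
  have key : ∀ q : ℝ, p ≤ q → ENNReal.ofReal ((((k : ℝ) + 1) ^ (-(1 / q))) ^ k) * (X * V) ≤ A := by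
    intro q hq
    have hq1 : 1 ≤ q := hp.trans hq
    have h1 : X ≤ A / volume {x : Fin k → ℝ | ∑ i, |x i| ^ q ≤ 1} := by
      refine (main_ineq μ T p q hp hq).trans ?_
      exact ENNReal.div_le_div_right (measure_mono (image_mono (ball_le_cube q hq1))) _
    have h2 : X * volume {x : Fin k → ℝ | ∑ i, |x i| ^ q ≤ 1} ≤ A := ENNReal.mul_le_of_le_div h1
    refine le_trans ?_ h2
    calc ENNReal.ofReal ((((k : ℝ) + 1) ^ (-(1 / q))) ^ k) * (X * V)
        = X * (ENNReal.ofReal ((((k : ℝ) + 1) ^ (-(1 / q))) ^ k) * V) := by ring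
      _ ≤ _ := by gcongr; exact cube_le_ball k q hq1
  have hlim : Filter.Tendsto (fun q : ℝ => ENNReal.ofReal ((((k : ℝ) + 1) ^ (-(1 / q))) ^ k) * (X * V))
      Filter.atTop (nhds (ENNReal.ofReal 1 * (X * V))) := by
    apply ENNReal.Tendsto.mul_const
    · apply ENNReal.tendsto_ofReal
      have h1 : Filter.Tendsto (fun q : ℝ => -(1 / q)) Filter.atTop (nhds 0) := by
        have := (tendsto_inv_atTop_zero (𝕜 := ℝ)).neg
        simpa using this
      have h2 : Filter.Tendsto (fun q : ℝ => ((k : ℝ) + 1) ^ (-(1 / q))) Filter.atTop (nhds 1) := by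
        have h3 := (tendsto_const_nhds (x := (k : ℝ) + 1) (f := Filter.atTop)).rpow h1
          (Or.inl (by positivity))
        rwa [Real.rpow_zero] at h3
      have h4 := h2.pow k
      rwa [one_pow] at h4
    · left
      simp
  rw [ENNReal.ofReal_one, one_mul] at hlim
  have hfin := le_of_tendsto hlim (Filter.eventually_atTop.2 ⟨p, fun q hq => key q hq⟩)
  rw [ENNReal.le_div_iff_mul_le]
  · exact hfin
  · left
    rw [hVb]
    positivity
  · left
    rw [hVb]
    exact ENNReal.pow_ne_top (by norm_num)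

end Pool.Agent.Y368.MX
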